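import Pool.Agent.DS.Main
import Pool.Agent.AS.FatA
import Pool.Agent.AS.FatB
import Pool.Agent.AS.CompA
import Pool.Agent.AS.SCa
import Pool.Agent.AS.SCb
import Pool.Agent.AS.Cover

set_option autoImplicit false

/-! # A Denjoy type theorem for wandering components with uniformly bounded orbit -/

namespace Pool.Agent.Results.MP_a853b7_an.NonlinearityDiverges

open Filter Metric Topology Pool.Agent.AS

/-- Let `f` be entire and let `Ω` be the component containing `z₀` of its Fatou set `F` (as in the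
problem).  Suppose that the forward images of `Ω` are uniformly bounded and pairwise disjoint, and
that `f'` has no zero in the disc of radius `s n ≤ 1` around `f^[n] z₀`.  Then it is impossible that
`∑ (|(f^[n])' z₀| / s n) ^ 2` converges and the nonlinearity `(f^[n])'' z₀ / (f^[n])' z₀`
converges. -/
theorem result (f : ℂ → ℂ) (hf : Differentiable ℂ f) (F : Set ℂ)
    (hF : F = {z : ℂ | ∃ ε > (0 : ℝ), ∀ φ : ℕ → ℕ, StrictMono φ →
            ∃ ψ : ℕ → ℕ, StrictMono ψ ∧
              ((∃ g : ℂ → ℂ, TendstoUniformlyOn (fun k => f^[φ (ψ k)]) g atTop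
                  (closedBall z ε)) ∨
               (∀ M : ℝ, ∀ᶠ k in atTop, ∀ w ∈ closedBall z ε,
                  M < ‖f^[φ (ψ k)] w‖))})
    (z₀ : ℂ) (hz₀ : z₀ ∈ F)
    (hb : ∃ R : ℝ, ∀ n : ℕ, ∀ w ∈ connectedComponentIn F z₀, ‖f^[n] w‖ ≤ R)
    (hd : ∀ n m : ℕ, n ≠ m →
      Disjoint (f^[n] '' connectedComponentIn F z₀) (f^[m] '' connectedComponentIn F z₀))
    (s : ℕ → ℝ) (hs : ∀ n, 0 < s n ∧ s n ≤ 1)
    (hc : ∀ n, ∀ u ∈ ball (f^[n] z₀) (s n), deriv f u ≠ 0) :
    ¬ ((Summable fun n => (‖deriv (f^[n]) z₀‖ / s n) ^ 2) ∧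
      ∃ ℓ : ℂ, Tendsto (fun n : ℕ => deriv (deriv (f^[n])) z₀ / deriv (f^[n]) z₀) atTop (𝓝 ℓ)) := by
  have hF' : F = Fat f := hF
  subst hF'
  rintro ⟨hsum, ℓ, hlim⟩
  obtain ⟨R, hR⟩ := hb
  have hInv : Stmt_FatInv := fatInv
  have hChain : Stmt_CompChain := compChain fatMontel
  have hSC : Stmt_SC := sc_of scA scB
  have hV : Comp f R (connectedComponentIn (Fat f) z₀) := comp_of fatOpen hz₀ hR
  have hnc := nonconst_of hf ⟨z₀, mem_connectedComponentIn hz₀⟩ hd
  exact Pool.Agent.DS.main (compImage hInv) hChain hSC cover hInv fatMontel hf hnc hV hd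
    (mem_connectedComponentIn hz₀) (fun n => (hs n).1) (fun n => (hs n).2) hc hsum hlim

end Pool.Agent.Results.MP_a853b7_an.NonlinearityDiverges
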