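import Pool.Agent.AS.Base
import Pool.Agent.AS.Escape
import Pool.Agent.AS.Local
import Pool.Agent.AS.Ct1
import Pool.Agent.AS.Ct2
import Pool.Agent.AS.Ct3
import Pool.Agent.AS.Eta
import Pool.Agent.AS.Ext
import Pool.Agent.AS.Kill
import Pool.Agent.AS.Geo
import Pool.Agent.AS.Sqrt
import Pool.Agent.AS.Cmp
import Pool.Agent.AS.FatA
import Pool.Agent.AS.FatB
import Pool.Agent.AS.CompA
import Pool.Agent.AS.SCa
import Pool.Agent.AS.SCb
import Pool.Agent.AS.Cover

set_option autoImplicit false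

/-! # Slow expansion near the boundary of wandering components with uniformly bounded orbit

An approximate version of Sullivan's argument.  No assumption is made on the singular values of the
entire function. -/

namespace Pool.Agent.Results.MP_a853b7_an.SlowExpansion

open Filter Metric Pool.Agent.AS

/-- Let `f` be entire and let `Ω` be a component of its Fatou set `F` (as in the problem) whose
forward images are uniformly bounded and pairwise disjoint.  For every open set `U` which meets the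
boundary of `Ω`, every radius `R₁` and every `0 < τ < 1`, for all sufficiently small `δ > 0` there
is a point `z` of the boundary of `Ω` in `U` such that for every `w` in the disc of radius `δ`
around `z` and every `n` such that `w, f w, …, f^[n-1] w` lie in the disc of radius `R₁` and
`|(f^[n])' w| ≥ 1 / δ` one has `∑_{j=1}^n |(f^[j])' w|⁻¹ ≥ exp (δ ^ (-τ))`. -/
theorem result (f : ℂ → ℂ) (hf : Differentiable ℂ f) (F : Set ℂ)
    (hF : F = {z : ℂ | ∃ ε > (0 : ℝ), ∀ φ : ℕ → ℕ, StrictMono φ →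
            ∃ ψ : ℕ → ℕ, StrictMono ψ ∧
              ((∃ g : ℂ → ℂ, TendstoUniformlyOn (fun k => f^[φ (ψ k)]) g atTop
                  (closedBall z ε)) ∨
               (∀ M : ℝ, ∀ᶠ k in atTop, ∀ w ∈ closedBall z ε,
                  M < ‖f^[φ (ψ k)] w‖))})
    (z₀ : ℂ) (hz₀ : z₀ ∈ F)
    (hb : ∃ R : ℝ, ∀ n : ℕ, ∀ w ∈ connectedComponentIn F z₀, ‖f^[n] w‖ ≤ R)
    (hd : ∀ n m : ℕ, n ≠ m →
      Disjoint (f^[n] '' connectedComponentIn F z₀) (f^[m] '' connectedComponentIn F z₀))
    (U : Set ℂ) (hU : IsOpen U) (hUΩ : (U ∩ frontier (connectedComponentIn F z₀)).Nonempty)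
    (R₁ τ : ℝ) (hτ0 : 0 < τ) (hτ1 : τ < 1) :
    ∃ δ₀ > (0 : ℝ), ∀ δ : ℝ, 0 < δ → δ < δ₀ →
      ∃ z ∈ U ∩ frontier (connectedComponentIn F z₀), ∀ w ∈ ball z δ, ∀ n : ℕ,
        (∀ j < n, ‖f^[j] w‖ < R₁) → 1 / δ ≤ ‖deriv (f^[n]) w‖ →
        Real.exp (δ ^ (-τ)) ≤ ∑ j ∈ Finset.range n, ‖deriv (f^[j + 1]) w‖⁻¹ := by
  have hF' : F = Fat f := hF
  subst hF'
  obtain ⟨R, hR⟩ := hb
  have hInv : Stmt_FatInv := fatInv
  have hChain : Stmt_CompChain := compChain fatMontel
  have hSC : Stmt_SC := sc_of scA scB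
  have hLocal : Stmt_Local := localInj (compImage hInv) hChain hSC cover circ hInv
  have hHol : Stmt_CtHol := ctHol
  have hBase : Stmt_Base := base ctBound ctHolder hHol ctSum ctCircle (etaHol ctHolder hHol)
    extend kill orbit geo sqrtChain cmp
  have hV : Comp f R (connectedComponentIn (Fat f) z₀) := comp_of fatOpen hz₀ hR
  have hnc := nonconst_of hf ⟨z₀, mem_connectedComponentIn hz₀⟩ hd
  obtain ⟨q, r, hq, hr, hqU, hinj⟩ := hLocal f R _ hf hnc hV hd U hU hUΩ
  have hVb : Bornology.IsBounded (connectedComponentIn (Fat f) z₀) := by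
    refine (isBounded_closedBall (x := (0 : ℂ)) (r := R)).subset fun z hz => ?_
    rw [mem_closedBall_zero_iff]
    exact hR 0 z hz
  obtain ⟨δ₀, hδ₀, h⟩ := hBase f hf hnc _ hV.op hVb (hChain f R _ hf hV) q r hq hr hinj
    (fun n m hnm => (hd n m hnm).mono (Set.image_mono Set.inter_subset_left)
      (Set.image_mono Set.inter_subset_left)) (max R₁ 1) τ (by positivity) hτ0 hτ1
  refine ⟨δ₀, hδ₀, fun δ hδ hδδ => ?_⟩
  obtain ⟨z, hz, hzS⟩ := h δ hδ hδδ
  exact ⟨z, ⟨hqU hz.1, hz.2⟩, fun w hw n hn hdn =>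
    hzS w hw n (fun j hj => (hn j hj).trans_le (le_max_left _ _)) hdn⟩

end Pool.Agent.Results.MP_a853b7_an.SlowExpansion
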