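import Pool.Agent.AS.Escape
import Pool.Agent.AS.FatA
import Pool.Agent.AS.FatB
import Pool.Agent.HMZ.Tail
import Pool.Agent.HMZ.Kil
import Pool.Agent.HMZ.Dsc
import Pool.Agent.HMZ.Inv
import Pool.Agent.HMZ.Spl
import Pool.Agent.HMZ.Pol
import Pool.Agent.HMZ.Dat
import Pool.Agent.HMZ.Bad
import Pool.Agent.HMZ.PJ
import Pool.Agent.HMZ.TCu
import Pool.Agent.HMZ.TC
import Pool.Agent.HMZ.Num
import Pool.Agent.HMZ.Opn
import Pool.Agent.HMZ.Cor
import Pool.Agent.HMZ.Gen
import Pool.Agent.HMZ.Fin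

set_option autoImplicit false

/-! # Harmonic-almost every boundary point of a wandering component with bounded orbit has zero exponent

A measure theoretic version of Sullivan's argument.  No assumption is made on the singular values of
the entire function.  Two consequences are proved in `Pool/Agent/HMZ/Sum.lean` and
`Pool/Agent/HMZ/Bal.lean`: at harmonic-almost every boundary point `ζ` the series
`∑ |(f^[n])' ζ| ^ (-δ)` diverges for every `δ > 0`, and for every `ε > 0` the harmonic measure of the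
set of the boundary points `ζ` such that `f^[j] (ball ζ (exp (-ε m)))` leaves the disc of radius
`R + 1` for some `j ≤ m` tends to `0` as `m → ∞`. -/

namespace Pool.Agent.Results.MP_a853b7_an.ZeroExponent

open Filter Metric Topology MeasureTheory Complex Pool.Agent.AS Pool.Agent.HMZ

/-- Let `f` be entire and let `Ω` be a component of its Fatou set `F` (as in the problem) whose
forward images are uniformly bounded and pairwise disjoint.  Let `ψ` be a nonconstant holomorphic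
map of the unit disc into `Ω` (for instance a Riemann map).  For every `R₁` and every `p` the outer
measure of the set of the `t ∈ [0, 2π]` with the following property tends to `0` as `L → ∞`: the
radial limit `ζ` of `ψ` at `exp (i t)` exists and is in the boundary of `Ω`, and there are a point
`w` of the disc of radius `1 / L` around `ζ` and an `n` such that `|f^[j] w| < R₁` for `j < n`,
`|(f^[n])' w| ≥ L` and `∑_{j=1}^n |(f^[j])' w|⁻¹ ≤ L ^ p`. -/
theorem result (f : ℂ → ℂ) (hf : Differentiable ℂ f) (F : Set ℂ)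
    (hF : F = {z : ℂ | ∃ ε > (0 : ℝ), ∀ φ : ℕ → ℕ, StrictMono φ →
            ∃ ψ : ℕ → ℕ, StrictMono ψ ∧
              ((∃ g : ℂ → ℂ, TendstoUniformlyOn (fun k => f^[φ (ψ k)]) g atTop
                  (closedBall z ε)) ∨
               (∀ M : ℝ, ∀ᶠ k in atTop, ∀ w ∈ closedBall z ε,
                  M < ‖f^[φ (ψ k)] w‖))})
    (z₀ : ℂ) (hz₀ : z₀ ∈ F)
    (hb : ∃ R : ℝ, ∀ n : ℕ, ∀ w ∈ connectedComponentIn F z₀, ‖f^[n] w‖ ≤ R)
    (hd : ∀ n m : ℕ, n ≠ m →
      Disjoint (f^[n] '' connectedComponentIn F z₀) (f^[m] '' connectedComponentIn F z₀))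
    (ψ : ℂ → ℂ) (hψ : DifferentiableOn ℂ ψ (ball 0 1))
    (hψΩ : ∀ x ∈ ball (0 : ℂ) 1, ψ x ∈ connectedComponentIn F z₀)
    (hψc : ∃ x ∈ ball (0 : ℂ) 1, ∃ y ∈ ball (0 : ℂ) 1, ψ x ≠ ψ y) (R₁ p : ℝ) :
    Tendsto (fun L : ℝ => volume {t : ℝ | t ∈ Set.Icc 0 (2 * Real.pi) ∧
      ∃ ζ ∈ frontier (connectedComponentIn F z₀),
        Tendsto (fun s : ℝ => ψ (s * exp (t * I))) (𝓝[<] 1) (𝓝 ζ) ∧
        ∃ w ∈ ball ζ (1 / L), ∃ n : ℕ, (∀ j < n, ‖f^[j] w‖ < R₁) ∧ L ≤ ‖deriv (f^[n]) w‖ ∧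
          ∑ j ∈ Finset.range n, ‖deriv (f^[j + 1]) w‖⁻¹ ≤ L ^ p}) atTop (𝓝 0) := by
  have hF' : F = Fat f := hF
  subst hF'
  obtain ⟨R, hR⟩ := hb
  have hV : Comp f R (connectedComponentIn (Fat f) z₀) := comp_of fatOpen hz₀ hR
  have hnc := nonconst_of hf ⟨z₀, mem_connectedComponentIn hz₀⟩ hd
  have hw := fin_deriv hψ hψc
  have hTC : St_TC := thm_TC (thm_TCu thm_PJ)
  have hDat : St_Dat := thm_Dat thm_Kil thm_Inv (thm_Spl thm_Dsc) thm_Pol
  have hGen : St_Gen := thm_Gen thm_Tail (thm_Cor hDat thm_Bad hTC thm_Num thm_Opn)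
  exact fin_gen hGen f R _ hf hnc hV hd ψ hψ hψΩ hw R₁ p

end Pool.Agent.Results.MP_a853b7_an.ZeroExponent
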